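import Mathlib
import Pool.Agent.Q48.CS.Main

set_option autoImplicit false

/-! # A `Q`-normal number that is not normal along any arithmetic progression -/

namespace Pool.Agent.Results.MP_8144ad_nt.NormalNotAP

open Filter Topology Finset Pool.Agent.Q48.CS

/-- `E 1, E 2, …` are the digits of the `Q`-Cantor series expansion of `x`
(with `Q = (q 1, q 2, …)` and `E_0 = ⌊x⌋`) -/
def IsExpansion (q : ℕ → ℕ) (x : ℝ) (E : ℕ → ℕ) : Prop :=
  (∀ n, 1 ≤ n → E n < q n) ∧ (∃ᶠ n in atTop, E n ≠ q n - 1) ∧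
    HasSum (fun n : ℕ => (E (n + 1) : ℝ) / ∏ i ∈ Icc 1 (n + 1), (q i : ℝ)) (x - ⌊x⌋)

/-- the block `B` of length `k` occurs at position `i` -/
def Occurs (E : ℕ → ℕ) {k : ℕ} (B : Fin k → ℕ) (i : ℕ) : Prop := ∀ t : Fin k, E (i + t) = B t

open Classical in
/-- the number of positions `1 ≤ i ≤ n` at which `B` occurs -/
noncomputable def count (E : ℕ → ℕ) {k : ℕ} (B : Fin k → ℕ) (n : ℕ) : ℕ :=
  ((Icc 1 n).filter (fun i => Occurs E B i)).card

/-- `Q_n^{(k)}` -/
noncomputable def weight (q : ℕ → ℕ) (k n : ℕ) : ℝ :=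
  ∑ i ∈ Icc 1 n, 1 / ∏ t ∈ range k, (q (i + t) : ℝ)

open Classical in
/-- the number of positions `1 ≤ i ≤ n`, `i ≡ r (mod m)`, at which `B` occurs -/
noncomputable def countAP (E : ℕ → ℕ) {k : ℕ} (B : Fin k → ℕ) (m r n : ℕ) : ℕ :=
  ((Icc 1 n).filter (fun i => i ≡ r [MOD m] ∧ Occurs E B i)).card

/-- `Q^{(k)}_{n,m,r}` -/
noncomputable def weightAP (q : ℕ → ℕ) (k m r n : ℕ) : ℝ :=
  ∑ i ∈ (Icc 1 n).filter (fun i => i ≡ r [MOD m]), 1 / ∏ t ∈ range k, (q (i + t) : ℝ)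

/-- the digit sequence `E` is `Q`-normal of order `k` -/
def NormalOrder (q : ℕ → ℕ) (E : ℕ → ℕ) (k : ℕ) : Prop :=
  ∀ B : Fin k → ℕ, Tendsto (fun n => (count E B n : ℝ) / weight q k n) atTop (𝓝 1)

/-- the condition `N^{AP}_k(Q;m,r)` for the digit sequence `E` -/
def NormalAP (q : ℕ → ℕ) (E : ℕ → ℕ) (k m r : ℕ) : Prop :=
  ∀ B : Fin k → ℕ, Tendsto (fun n => (countAP E B m r n : ℝ) / weightAP q k m r n) atTop (𝓝 1)

/-- `Q` is fully divergent of type I -/
def FullyDivergent (q : ℕ → ℕ) : Prop :=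
  ∀ k : ℕ, 1 ≤ k → ∀ m : ℕ, 1 ≤ m → ∀ r < m, Tendsto (weightAP q k m r) atTop atTop

lemma modEq_iff {m r i : ℕ} (hr : r < m) : i ≡ r [MOD m] ↔ i % m = r := by
  unfold Nat.ModEq; rw [Nat.mod_eq_of_lt hr]

lemma countAP_eq {k : ℕ} (B : Fin k → ℕ) {m r : ℕ} (hr : r < m) (n : ℕ) :
    (countAP EE B m r n : ℝ) = UU B m r n := by
  classical
  unfold countAP UU
  rw [Finset.card_filter]
  push_cast
  rw [show Icc 1 n = Ioc 0 n from rfl]
  apply Finset.sum_congr rfl
  intro i _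
  unfold uu Occurs
  simp only [modEq_iff hr]

lemma weightAP_eq (k : ℕ) {m r : ℕ} (hr : r < m) (n : ℕ) : weightAP qq k m r n = VV k m r n := by
  unfold weightAP VV vv
  rw [Finset.sum_filter, show Icc 1 n = Ioc 0 n from rfl]
  simp only [modEq_iff hr]

lemma count_eq {k : ℕ} (B : Fin k → ℕ) (n : ℕ) : (count EE B n : ℝ) = UU B 1 0 n := by
  rw [← countAP_eq B Nat.zero_lt_one n]
  unfold count countAP
  congr 2
  ext i
  simp only [Finset.mem_filter]
  exact ⟨fun h => ⟨h.1, Nat.modEq_one, h.2⟩, fun h => ⟨h.1, h.2.2⟩⟩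

lemma weight_eq (k n : ℕ) : weight qq k n = VV k 1 0 n := by
  rw [← weightAP_eq k Nat.zero_lt_one n]
  unfold weight weightAP
  rw [Finset.filter_true_of_mem (fun i _ => Nat.modEq_one)]

lemma qq_tendsto : Tendsto qq atTop atTop := by
  rw [Filter.tendsto_atTop_atTop]
  intro C
  refine ⟨ss C + 1, fun n hn => ?_⟩
  unfold qq
  have h1 : C ≤ st (n - 1) := by
    have h2 : st (ss C) = C := st_eq le_rfl (ss_strictMono (Nat.lt_succ_self C))
    calc C = st (ss C) := h2.symm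
      _ ≤ st (n - 1) := st_mono (by omega)
  have h3 := bb_ge (st (n - 1))
  omega

lemma EE_start (j : ℕ) : EE (ss j + 1) = 0 := by
  have h := EE_pos (j := j) (l := 0) (c := 0) (y := 0) (RR_pos j) (pow_pos (bb_pos j) _) (Lam_pos j)
  have e : ss j + 0 * per j + 0 * Lam j + 0 + 1 = ss j + 1 := by ring
  rw [e] at h
  rw [h]
  unfold Pool.Agent.Q48.CS.val dd
  have h1 : 0 < (j + 1) * Lam j := Nat.mul_pos (by omega) (Lam_pos j)
  rw [if_pos]
  · simp
  · refine ⟨by omega, by simpa using h1, fun t h2 h3 => by omega⟩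

lemma freq : ∃ᶠ n in atTop, EE n ≠ qq n - 1 := by
  rw [frequently_atTop]
  intro a
  refine ⟨ss a + 1, ?_, ?_⟩
  · have := ss_strictMono.id_le a
    simp only [id] at this
    omega
  · rw [EE_start]
    have := qq_ge2 (ss a + 1)
    omega

/-- the product of the first `n` bases -/
noncomputable def PP (n : ℕ) : ℝ := ∏ i ∈ Icc 1 n, (qq i : ℝ)

lemma PP_pos (n : ℕ) : 0 < PP n := by
  unfold PP
  apply Finset.prod_pos
  intro i _
  have := qq_ge2 i
  exact_mod_cast (by omega : 0 < qq i)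

lemma PP_succ (n : ℕ) : PP (n + 1) = PP n * qq (n + 1) := by
  unfold PP
  rw [Finset.prod_Icc_succ_top (by omega)]

lemma term_eq (n : ℕ) : ((qq (n + 1) : ℝ) - 1) / PP (n + 1) = 1 / PP n - 1 / PP (n + 1) := by
  have h1 := (PP_pos n).ne'
  have h2 : (qq (n + 1) : ℝ) ≠ 0 := by
    have := qq_ge2 (n + 1)
    exact_mod_cast (by omega : qq (n + 1) ≠ 0)
  rw [PP_succ]
  field_simp

/-- there is a number with the digits `EE` -/
lemma exists_x : ∃ x : ℝ, IsExpansion qq x EE := by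
  set f : ℕ → ℝ := fun n => (EE (n + 1) : ℝ) / PP (n + 1) with hf
  set g : ℕ → ℝ := fun n => 1 / PP n - 1 / PP (n + 1) with hg
  have hf0 : ∀ n, 0 ≤ f n := fun n => div_nonneg (Nat.cast_nonneg _) (PP_pos _).le
  have hEq : ∀ n, (EE (n + 1) : ℝ) ≤ (qq (n + 1) : ℝ) - 1 := by
    intro n
    have h1 := EE_lt (n + 1)
    have h2 : ((EE (n + 1) + 1 : ℕ) : ℝ) ≤ (qq (n + 1) : ℝ) := by exact_mod_cast h1
    push_cast at h2
    linarith
  have hfg : ∀ n, f n ≤ g n := by
    intro n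
    rw [hg, hf]
    simp only
    rw [← term_eq]
    exact div_le_div_of_nonneg_right (hEq n) (PP_pos _).le
  have hg0 : ∀ n, 0 ≤ g n := fun n => (hf0 n).trans (hfg n)
  have hgsum : ∀ N, ∑ n ∈ range N, g n = 1 - 1 / PP N := by
    intro N
    induction N with
    | zero => simp [PP]
    | succ N ih => rw [Finset.sum_range_succ, ih, hg]; ring
  have hgle : ∀ N, ∑ n ∈ range N, g n ≤ 1 := by
    intro N
    rw [hgsum]
    have := div_pos one_pos (PP_pos N)
    linarith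
  have hgS : Summable g := summable_of_sum_range_le hg0 hgle
  have hfS : Summable f := Summable.of_nonneg_of_le hf0 hfg hgS
  have hgT : ∑' n, g n ≤ 1 := Real.tsum_le_of_sum_range_le hg0 hgle
  have hlt : ∑' n, f n < 1 := by
    refine lt_of_lt_of_le ?_ hgT
    apply Summable.tsum_lt_tsum (i := ss 0) hfg _ hfS hgS
    rw [hg, hf]
    simp only
    rw [← term_eq, EE_start]
    apply div_lt_div_of_pos_right _ (PP_pos _)
    have h2 : ((2 : ℕ) : ℝ) ≤ (qq (ss 0 + 1) : ℝ) := by exact_mod_cast qq_ge2 (ss 0 + 1)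
    push_cast at h2 ⊢
    linarith
  have h0 : 0 ≤ ∑' n, f n := tsum_nonneg hf0
  refine ⟨∑' n, f n, fun n _ => EE_lt n, freq, ?_⟩
  have hfl : ⌊∑' n, f n⌋ = 0 := by
    rw [Int.floor_eq_iff]
    constructor
    · simpa using h0
    · simpa using hlt
  rw [hfl, Int.cast_zero, sub_zero]
  exact hfS.hasSum

lemma sp_cases {m r : ℕ} (hm : 1 ≤ m) :
    ((ss m + 1) % m = r → ∀ᶠ j in atTop, (ss j + 1) % m = r) ∧
    (¬ (ss m + 1) % m = r → ∀ᶠ j in atTop, (ss j + 1) % m ≠ r) := by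
  constructor
  · intro h
    filter_upwards [eventually_ge_atTop m] with j hj
    rw [ss_mod hm j hj]; exact h
  · intro h
    filter_upwards [eventually_ge_atTop m] with j hj
    rw [ss_mod hm j hj]; exact h

/-- **Normal, but not normal along any arithmetic progression.**  There are a basic sequence `Q`
with `q_n → ∞`, fully divergent of type I, and a real number `x` which is `Q`-normal (of every
order `k ≥ 1`), such that `x ∉ N^{AP}_k(Q;m,r)` for all `k ≥ 1`, all `m ≥ 2` and all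
`0 ≤ r ≤ m - 1`. -/
theorem result : ∃ (q : ℕ → ℕ) (x : ℝ) (E : ℕ → ℕ),
    (∀ n, 1 ≤ n → 2 ≤ q n) ∧ Tendsto q atTop atTop ∧ FullyDivergent q ∧
    IsExpansion q x E ∧ (∀ k : ℕ, 1 ≤ k → NormalOrder q E k) ∧
    ∀ k : ℕ, 1 ≤ k → ∀ m : ℕ, 2 ≤ m → ∀ r < m, ¬ NormalAP q E k m r := by
  obtain ⟨x, hx⟩ := exists_x
  refine ⟨qq, x, EE, fun n _ => qq_ge2 n, qq_tendsto, ?_, hx, ?_, ?_⟩
  · intro k _ m hm r hr
    have h := VV_tendsto (k := k) hm hr
    refine h.congr (fun n => ?_)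
    rw [weightAP_eq k hr n]
  · intro k hk B
    have h := (limits hk B (m := 1) (r := 0) le_rfl Nat.zero_lt_one True
      (fun _ => Eventually.of_forall (fun j => Nat.mod_one _)) (fun h => absurd trivial h)).1 trivial
    rw [Nat.cast_one] at h
    refine h.congr (fun n => ?_)
    rw [count_eq, weight_eq]
  · intro k hk m hm r hr hAP
    have hm1 : 1 ≤ m := by omega
    have h := limits hk (fun _ => 0) hm1 hr ((ss m + 1) % m = r) (sp_cases hm1).1 (sp_cases hm1).2
    have hB := hAP (fun _ => 0)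
    have hB' : Tendsto (fun n => UU (fun _ : Fin k => 0) m r n / VV k m r n) atTop (𝓝 1) := by
      refine hB.congr (fun n => ?_)
      rw [countAP_eq _ hr, weightAP_eq k hr]
    by_cases hsp : (ss m + 1) % m = r
    · have h1 := tendsto_nhds_unique hB' (h.1 hsp)
      have h2 : (m : ℝ) = 1 := h1.symm
      have h3 : m = 1 := by exact_mod_cast h2
      omega
    · have h1 := tendsto_nhds_unique hB' (h.2 hsp)
      exact one_ne_zero h1

end Pool.Agent.Results.MP_8144ad_nt.NormalNotAP
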